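import Mathlib
import Pool.Agent.Lib.MP_28f43d_co.Defs
import Pool.Agent.Lib.MP_28f43d_co.Assembly

/-!
For every nontrivial finite group `G` and all positive integers `m < n` there is a finite free
`G`-poset `P` whose order complex has mapping index `m` and whose cross-index is `n`.
-/

set_option autoImplicit false

universe u

open Pool.Agent.Lib.MP_28f43d_co in
theorem Pool.Agent.Results.MP_28f43d_co.GapsRealised.result
    (G : Type u) [Group G] [Fintype G] [Nontrivial G] (m n : ℕ) (hm : 0 < m) (hmn : m < n) :
    ∃ (P : Type u) (_ : Fintype P) (_ : PartialOrder P) (_ : MulAction G P) (_ : GPoset G P),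
      (∀ (g : G) (p : P), g • p = p → g = 1) ∧
      IsLeast (indSet G (Realization P)) m ∧ IsLeast (xindSet G P) n := by
  obtain ⟨P, i1, i2, i3, i4, hfree, hu, hl, hxu, hx⟩ := exists_main G (n - (m - 1)) (by omega) (m - 1)
  have h1 : m - 1 + 1 = m := by omega
  have h2 : n - (m - 1) + (m - 1) = n := by omega
  rw [h1] at hu hl
  rw [h2] at hxu hx
  refine ⟨P, i1, i2, i3, i4, hfree, ⟨mem_indSet_of_up m hu, ?_⟩, ⟨hxu, ?_⟩⟩
  · intro k hk
    by_contra hcon
    push Not at hcon
    exact not_mem_indSet_of_low hfree m hl k hcon hk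
  · intro k hk
    by_contra hcon
    push Not at hcon
    exact not_mem_xindSet_of_xlow n hx k hcon hk
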